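import Pool.Agent.Work.MP_0f91f8_co.Aut.Main

open Topology

namespace Pool.Agent.Work.MP_0f91f8_co.Held.AutomaticMultiplicative

/-- Let `a` be a function from the natural numbers to a finite set which has bounded width in base
`b ≥ 2`: for some `s` and every `k`, at most `s` different functions occur among the sections
`n ↦ a (b ^ k * n + j)`, `0 ≤ j < b ^ k` (for example, let `a` be a `b`-automatic sequence).  Let
`f` be a completely multiplicative map from the positive integers to a compact abelian group, and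
let `U` be a neighbourhood of some `f n₀`.  Let `Q` be a set of primes with
`∑ q ∈ Q, 1 / √q < ∞`, and let `δ > 0`.  Let `c` be a colouring of the natural numbers with
finitely many colours such that, for `n` with `f n` in `U`, the colour of `n` depends only on
`a n`, on the exponents of `n` at the primes of `Q`, and on the rough size of `n`.  Then there is a
monochromatic Pythagorean triple `x, y, z`, with `f x`, `f y`, `f z` in `U`. -/
theorem result {K S : Type*} [CommGroup K] [TopologicalSpace K] [IsTopologicalGroup K]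
    [CompactSpace K] [Finite S] (b s : ℕ) (hb : 2 ≤ b) (a : ℕ → S)
    (ha : ∀ k : ℕ, {g : ℕ → S | ∃ j < b ^ k, g = fun n => a (b ^ k * n + j)}.encard ≤ s)
    (f : ℕ → K) (hf : ∀ m n : ℕ, 0 < m → 0 < n → f (m * n) = f m * f n)
    (n₀ : ℕ) (hn₀ : 0 < n₀) (U : Set K) (hU : U ∈ 𝓝 (f n₀))
    (Q : Set ℕ) (hQ : ∀ q ∈ Q, q.Prime) (hs : Summable (fun q : Q => 1 / Real.sqrt (q : ℕ)))
    (δ : ℝ) (hδ : 0 < δ) (r : ℕ) (c : ℕ → Fin r)
    (hc : ∀ m n : ℕ, 0 < m → 0 < n → a m = a n → f m ∈ U → f n ∈ U →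
      (∀ q ∈ Q, padicValNat q m = padicValNat q n) → |(m : ℝ) - n| ≤ δ * m → c m = c n) :
    ∃ x y z : ℕ, 0 < x ∧ 0 < y ∧ 0 < z ∧ x ^ 2 + y ^ 2 = z ^ 2 ∧
      f x ∈ U ∧ f y ∈ U ∧ f z ∈ U ∧ c x = c y ∧ c y = c z :=
  Pool.Agent.Work.MP_0f91f8_co.Aut.main hf hn₀ hU hb ha hQ hs hδ hc

end Pool.Agent.Work.MP_0f91f8_co.Held.AutomaticMultiplicative
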