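import Pool.Agent.Work.MP_0f91f8_co.Automaton

namespace Pool.Agent.Results.MP_0f91f8_co.BoundedWidth

/-- Let `b ≥ 2` and let `c` be a finite colouring of the natural numbers for which there is a bound
`s` such that, for every `k`, at most `s` different functions occur among the sections
`n ↦ c (b ^ k * n + j)`, `0 ≤ j < b ^ k`.  Then some Pythagorean triple is monochromatic. -/
theorem result (r b s : ℕ) (hb : 2 ≤ b) (c : ℕ → Fin r)
    (hc : ∀ k : ℕ, {g : ℕ → Fin r | ∃ j < b ^ k, g = fun n => c (b ^ k * n + j)}.encard ≤ s) :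
    ∃ x y z : ℕ, 0 < x ∧ 0 < y ∧ 0 < z ∧ x ^ 2 + y ^ 2 = z ^ 2 ∧ c x = c y ∧ c y = c z :=
  Pool.Agent.Work.MP_0f91f8_co.bounded_width b s r hb c hc

end Pool.Agent.Results.MP_0f91f8_co.BoundedWidth
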