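import Pool.Agent.Work.MP_0f91f8_co.Cge.All

open Topology

namespace Pool.Agent.Work.MP_0f91f8_co.Held.CompactExtensions

/-- Let `f` be a completely multiplicative map from the positive integers to a compact abelian
group `K`, let `W` be a neighbourhood of `f n₀`, let `Γ` be a compact group, not necessarily
abelian, and let `φ` be a map from the positive integers to `Γ` such that for every `k` the
quotient `φ (k n) (φ n)⁻¹` is a continuous function of `f n`, as long as `f n` and `f (k n)` are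
in `W`.  Let `U` be a neighbourhood of `(f n₀, φ n₀)` and let `A` be a set of natural numbers
that contains a dilate of every finite set of positive integers.  Then there is a Pythagorean
triple in `A` all of whose members have `(f, φ)` in `U`. -/
theorem result {K Γ : Type*} [CommGroup K] [TopologicalSpace K] [IsTopologicalGroup K]
    [CompactSpace K] [T2Space K] [Group Γ] [TopologicalSpace Γ] [IsTopologicalGroup Γ]
    [CompactSpace Γ] [T2Space Γ]
    (f : ℕ → K) (hf : ∀ m n : ℕ, 0 < m → 0 < n → f (m * n) = f m * f n)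
    (n₀ : ℕ) (hn₀ : 0 < n₀) (W : Set K) (hW : W ∈ 𝓝 (f n₀)) (φ : ℕ → Γ)
    (hφ : ∀ k : ℕ, 0 < k → ∃ τ : K → Γ, ContinuousOn τ {x | x ∈ W ∧ f k * x ∈ W} ∧
      ∀ n : ℕ, 0 < n → f n ∈ W → f (k * n) ∈ W → φ (k * n) = τ (f n) * φ n)
    (U : Set (K × Γ)) (hU : U ∈ 𝓝 (f n₀, φ n₀)) (A : Set ℕ)
    (hA : ∀ X : Finset ℕ, (∀ x ∈ X, 0 < x) → ∃ k : ℕ, 0 < k ∧ ∀ x ∈ X, x * k ∈ A) :
    ∃ x y z : ℕ, 0 < x ∧ 0 < y ∧ 0 < z ∧ x ^ 2 + y ^ 2 = z ^ 2 ∧ x ∈ A ∧ y ∈ A ∧ z ∈ A ∧
      (f x, φ x) ∈ U ∧ (f y, φ y) ∈ U ∧ (f z, φ z) ∈ U :=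
  Pool.Agent.Work.MP_0f91f8_co.Cge.main_all f hf n₀ hn₀ W hW φ hφ U hU A hA

end Pool.Agent.Work.MP_0f91f8_co.Held.CompactExtensions
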