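import Pool.Agent.Work.MP_0f91f8_co.Dfx.Main

open Topology

namespace Pool.Agent.Work.MP_0f91f8_co.Held.DistalActions

/-- Let `X` be a compact Hausdorff space with a distal action of the multiplicative semigroup of
positive integers: continuous maps `T k` with `T (k m) = T k ∘ T m` such that the orbit of a pair
of different points does not accumulate at the diagonal.  Let `U` be a neighbourhood of the point
`T n₀ x₀` and let `A` be a set of natural numbers that contains a dilate of every finite set of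
positive integers.  Then the set of all `n` in `A` with `T n x₀` in `U` contains a Pythagorean
triple. -/
theorem result {X : Type*} [TopologicalSpace X] [CompactSpace X] [T2Space X]
    (T : ℕ → X → X) (hTc : ∀ k : ℕ, 0 < k → Continuous (T k))
    (hTm : ∀ k m : ℕ, 0 < k → 0 < m → ∀ x, T (k * m) x = T k (T m x))
    (hd : ∀ x y z : X, (z, z) ∈ closure {p : X × X | ∃ k : ℕ, 0 < k ∧ p = (T k x, T k y)} →
      x = y)
    (x₀ : X) (n₀ : ℕ) (hn₀ : 0 < n₀) (U : Set X) (hU : U ∈ 𝓝 (T n₀ x₀)) (A : Set ℕ)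
    (hA : ∀ S : Finset ℕ, (∀ s ∈ S, 0 < s) → ∃ k : ℕ, 0 < k ∧ ∀ s ∈ S, s * k ∈ A) :
    ∃ x y z : ℕ, 0 < x ∧ 0 < y ∧ 0 < z ∧ x ^ 2 + y ^ 2 = z ^ 2 ∧ x ∈ A ∧ y ∈ A ∧ z ∈ A ∧
      T x x₀ ∈ U ∧ T y x₀ ∈ U ∧ T z x₀ ∈ U :=
  Pool.Agent.Work.MP_0f91f8_co.Dfx.main T hTc hTm hd x₀ n₀ hn₀ U hU A hA

end Pool.Agent.Work.MP_0f91f8_co.Held.DistalActions
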