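import Pool.Agent.Work.MP_0f91f8_co.Nil.All

open Topology

namespace Pool.Agent.Work.MP_0f91f8_co.Held.LocallyQuadratic

/-- Let `f` be a completely additive map from the positive integers to a power of the circle group,
let `W` be a neighbourhood of `f n₀`, and let `φ` be a map to a power of the circle group which is
locally quadratic on the multiplicative Bohr set of all `n` with `f n` in `W`: its third
multiplicative difference vanishes at every integer cube `n, na, nb, nc, nab, nac, nbc, nabc` in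
this set.  Let `U` be a neighbourhood of `(f n₀, φ n₀)` and let `A` be a multiplicatively thick set
of natural numbers (it contains a dilate of every finite set of positive integers).  Then the set
of all `n` in `A` with `(f n, φ n)` in `U` contains a Pythagorean triple. -/
theorem result {I J : Type*} (f : ℕ → I → UnitAddCircle)
    (hf : ∀ m n : ℕ, 0 < m → 0 < n → f (m * n) = f m + f n)
    (n₀ : ℕ) (hn₀ : 0 < n₀) (W : Set (I → UnitAddCircle)) (hW : W ∈ 𝓝 (f n₀))
    (φ : ℕ → J → UnitAddCircle)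
    (hφ : ∀ n a b c : ℕ, 0 < n → 0 < a → 0 < b → 0 < c →
      f n ∈ W → f (n * a) ∈ W → f (n * b) ∈ W → f (n * c) ∈ W →
      f (n * a * b) ∈ W → f (n * a * c) ∈ W → f (n * b * c) ∈ W → f (n * a * b * c) ∈ W →
      ∀ j, φ (n * a * b * c) j + φ (n * a) j + φ (n * b) j + φ (n * c) j =
        φ (n * a * b) j + φ (n * a * c) j + φ (n * b * c) j + φ n j)
    (U : Set ((I → UnitAddCircle) × (J → UnitAddCircle))) (hU : U ∈ 𝓝 (f n₀, φ n₀)) (A : Set ℕ)
    (hA : ∀ X : Finset ℕ, (∀ x ∈ X, 0 < x) → ∃ k : ℕ, 0 < k ∧ ∀ x ∈ X, x * k ∈ A) :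
    ∃ x y z : ℕ, 0 < x ∧ 0 < y ∧ 0 < z ∧ x ^ 2 + y ^ 2 = z ^ 2 ∧ x ∈ A ∧ y ∈ A ∧ z ∈ A ∧
      (f x, φ x) ∈ U ∧ (f y, φ y) ∈ U ∧ (f z, φ z) ∈ U :=
  Pool.Agent.Work.MP_0f91f8_co.Nil.main Pool.Agent.Work.MP_0f91f8_co.Nil.mainf hf hn₀ hW hφ hU hA

end Pool.Agent.Work.MP_0f91f8_co.Held.LocallyQuadratic
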