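import Pool.Agent.Work.MP_0f91f8_co.BohrFinal

open Topology

namespace Pool.Agent.Work.MP_0f91f8_co.Held.MultiplicativeBohr

/-- Let `f` be a completely multiplicative map from the positive integers to a compact abelian
topological group, let `U` be a neighbourhood of `f n₀`, let `A` be a multiplicatively thick set
of natural numbers (it contains a dilate of every finite set of positive integers), let `Q` be a
sparse set of primes (the sum of `q ^ (-1/2)` over `Q` is finite), and let `δ > 0`.  Let `c` be a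
colouring with finitely many colours which, on the set of all `n` in `A` with `f n` in `U`, depends
only on the exponents at the primes of `Q` and on the rough size of `n`.  Then this set contains a
monochromatic Pythagorean triple. -/
theorem result {K : Type*} [CommGroup K] [TopologicalSpace K] [IsTopologicalGroup K]
    [CompactSpace K] (f : ℕ → K) (hf : ∀ m n : ℕ, 0 < m → 0 < n → f (m * n) = f m * f n)
    (n₀ : ℕ) (hn₀ : 0 < n₀) (U : Set K) (hU : U ∈ 𝓝 (f n₀)) (A : Set ℕ)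
    (hA : ∀ X : Finset ℕ, (∀ x ∈ X, 0 < x) → ∃ k : ℕ, 0 < k ∧ ∀ x ∈ X, x * k ∈ A)
    (Q : Set ℕ) (hQ : ∀ q ∈ Q, q.Prime) (hs : Summable (fun q : Q => 1 / Real.sqrt (q : ℕ)))
    (δ : ℝ) (hδ : 0 < δ) (r : ℕ) (c : ℕ → Fin r)
    (hc : ∀ m n : ℕ, 0 < m → 0 < n → m ∈ A → n ∈ A → f m ∈ U → f n ∈ U →
      (∀ q ∈ Q, padicValNat q m = padicValNat q n) → |(m : ℝ) - n| ≤ δ * m → c m = c n) :
    ∃ x y z : ℕ, 0 < x ∧ 0 < y ∧ 0 < z ∧ x ^ 2 + y ^ 2 = z ^ 2 ∧ x ∈ A ∧ y ∈ A ∧ z ∈ A ∧
      f x ∈ U ∧ f y ∈ U ∧ f z ∈ U ∧ c x = c y ∧ c y = c z :=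
  Pool.Agent.Work.MP_0f91f8_co.Bohr.main hf hn₀ hU hA hQ hs hδ hc

end Pool.Agent.Work.MP_0f91f8_co.Held.MultiplicativeBohr
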