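import Pool.Agent.Work.MP_0f91f8_co.Mul.Main

namespace Pool.Agent.Work.MP_0f91f8_co.Held.MultiplicativeFunctions

/-- Let `f` be a multiplicative function (for coprime arguments only) with values in a finite
commutative monoid, let `Q` be a set of primes with `o(x)` elements up to `x ^ 2`, and let
`δ > 0`.  Let `c` be a colouring of the natural numbers with finitely many colours such that the
colour of `n` depends only on `f n`, on the exponents of `n` at the primes of `Q`, and on the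
rough size of `n`.  Then there is a monochromatic Pythagorean triple. -/
theorem result {S : Type} [CommMonoid S] [Finite S] (f : ℕ → S)
    (hf : ∀ m n : ℕ, 0 < m → 0 < n → m.Coprime n → f (m * n) = f m * f n)
    (Q : Set ℕ) (hQ : ∀ q ∈ Q, q.Prime)
    (hs : ∀ k : ℕ, ∃ x₀ : ℕ, ∀ x ≥ x₀, k * {q ∈ Q | q ≤ x ^ 2}.ncard ≤ x)
    (δ : ℝ) (hδ : 0 < δ) (r : ℕ) (c : ℕ → Fin r)
    (hc : ∀ m n : ℕ, 0 < m → 0 < n → f m = f n →
      (∀ q ∈ Q, padicValNat q m = padicValNat q n) → |(m : ℝ) - n| ≤ δ * m → c m = c n) :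
    ∃ x y z : ℕ, 0 < x ∧ 0 < y ∧ 0 < z ∧ x ^ 2 + y ^ 2 = z ^ 2 ∧ c x = c y ∧ c y = c z :=
  Pool.Agent.Work.MP_0f91f8_co.Mul.main hf hQ hs c δ hδ hc

end Pool.Agent.Work.MP_0f91f8_co.Held.MultiplicativeFunctions
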