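import Pool.Agent.Work.MP_0f91f8_co.Quad.PMain

open Topology

namespace Pool.Agent.Work.MP_0f91f8_co.Held.PolynomialBohr

/-- the multiplicative difference `n ↦ P (n * h) - P n` -/
def Diff (h : ℕ) (P : ℕ → UnitAddCircle) : ℕ → UnitAddCircle := fun n => P (n * h) - P n

/-- `P` is a polynomial of degree at most `d` on the multiplicative semigroup of positive
integers: it is constant if `d = 0`, and if `d = e + 1` then all its multiplicative differences are
polynomials of degree at most `e` -/
def IsPoly : ℕ → (ℕ → UnitAddCircle) → Prop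
  | 0, P => ∀ n, 0 < n → P n = P 1
  | (e + 1), P => ∀ h, 0 < h → IsPoly e (Diff h P)

lemma isPN_of (d : ℕ) : ∀ P : ℕ → UnitAddCircle, IsPoly d P →
    Pool.Agent.Work.MP_0f91f8_co.Quad.IsPN d P := by
  induction d with
  | zero => intro P h; exact h
  | succ d ih => intro P h m hm; exact ih _ (h m hm)

/-- Let `φ` be a map from the positive integers to a torus (a power of the circle group
`UnitAddCircle`, the index type `I` is arbitrary) all of whose coordinates are polynomials of degree
at most `d` on the multiplicative semigroup of positive integers.  Suppose that there are a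
completely multiplicative map `f` to a finite abelian group and a subgroup `Λ` of the circle without
nonzero elements of finite order which contains all values of the third multiplicative differences
of the coordinates of `φ` whose three steps `a`, `b`, `c` satisfy `f a = f b = f c = 1` (for
quadratic `φ`, that is `d = 2`, the third differences vanish and this is no condition).  Let `U` be a
neighbourhood of `φ n₀`, and let `A` be a multiplicatively thick set (it contains a dilate of every
finite set of positive integers).  Then the set of all `n` in `A` with `φ n` in `U` contains a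
Pythagorean triple. -/
theorem result {I E : Type*} [CommGroup E] [Finite E] (d : ℕ) (φ : ℕ → I → UnitAddCircle)
    (hφ : ∀ i, IsPoly d (fun n => φ n i)) (f : ℕ → E)
    (hf : ∀ m n : ℕ, 0 < m → 0 < n → f (m * n) = f m * f n)
    (Λ : AddSubgroup UnitAddCircle) (hΛ : ∀ y ∈ Λ, ∀ t : ℕ, 0 < t → t • y = 0 → y = 0)
    (hφΛ : ∀ (i : I) (a b c n : ℕ), 0 < a → 0 < b → 0 < c → 0 < n → f a = 1 → f b = 1 → f c = 1 →
      Diff a (Diff b (Diff c (fun n => φ n i))) n ∈ Λ)
    (n₀ : ℕ) (hn₀ : 0 < n₀) (U : Set (I → UnitAddCircle)) (hU : U ∈ 𝓝 (φ n₀)) (A : Set ℕ)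
    (hA : ∀ X : Finset ℕ, (∀ x ∈ X, 0 < x) → ∃ k : ℕ, 0 < k ∧ ∀ x ∈ X, x * k ∈ A) :
    ∃ x y z : ℕ, 0 < x ∧ 0 < y ∧ 0 < z ∧ x ^ 2 + y ^ 2 = z ^ 2 ∧ x ∈ A ∧ y ∈ A ∧ z ∈ A ∧
      φ x ∈ U ∧ φ y ∈ U ∧ φ z ∈ U :=
  Pool.Agent.Work.MP_0f91f8_co.Quad.mainP (fun i => isPN_of d _ (hφ i)) hf hΛ hφΛ hn₀ hU hA

end Pool.Agent.Work.MP_0f91f8_co.Held.PolynomialBohr
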