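import Pool.Agent.Work.MP_0f91f8_co.FC.AllU

namespace Pool.Agent.Results.MP_0f91f8_co.PrimeClasses

/-- Let `P` be a set of primes with finite sum of reciprocals, `d`, `r` natural numbers, `ε > 0`. There are
`k` and `δ > 0` with the following property. Let the primes outside `P` be divided into `d` classes (`cl`),
let `F` be a nonempty finite set of positive integers with `|{n ∈ F : p n ∈ F}| ≥ (1 - δ) |F|` for all
primes `p ≤ k`, and let `A i` (`i < r`) be subsets of `F` such that for any two primes `p, q ≤ k` outside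
`P` of the same class at most `δ |F|` of the `n ∈ F` have `p n ∈ A i` and `q n ∈ F \ A i`. Then there is a
Pythagorean triple `(x, y, z)` with `x, y, z ≤ k` such that the number of `n ∈ F` with
`x n, y n, z n ∈ A i`, summed over `i`, is at least `∑ |A i|³ / |F|² - ε |F|`. -/
theorem result (P : Set ℕ)
    (hP : Summable fun p : {p : ℕ // p.Prime ∧ p ∈ P} => 1 / ((p : ℕ) : ℝ)) (d r : ℕ) (ε : ℝ)
    (hε : 0 < ε) : ∃ (k : ℕ) (δ : ℝ), 0 < δ ∧ ∀ (cl : ℕ → Fin d) (F : Finset ℕ),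
    F.Nonempty → (∀ n ∈ F, 0 < n) →
    (∀ p : ℕ, p ≤ k → p.Prime →
      (1 - δ) * (F.card : ℝ) ≤ ((F.filter fun n => p * n ∈ F).card : ℝ)) →
    ∀ A : Fin r → Finset ℕ, (∀ i, A i ⊆ F) →
    (∀ p q : ℕ, p ≤ k → q ≤ k → p.Prime → q.Prime → p ∉ P → q ∉ P → cl p = cl q →
      ∀ i, ((F.filter fun n => p * n ∈ A i ∧ q * n ∈ F ∧ q * n ∉ A i).card : ℝ) ≤
        δ * (F.card : ℝ)) →
    ∃ x y z : ℕ, 0 < x ∧ 0 < y ∧ x ≤ k ∧ y ≤ k ∧ z ≤ k ∧ x ^ 2 + y ^ 2 = z ^ 2 ∧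
      (∑ i, ((A i).card : ℝ) ^ 3) / (F.card : ℝ) ^ 2 - ε * (F.card : ℝ) ≤
        ∑ i, ((F.filter fun n => x * n ∈ A i ∧ y * n ∈ A i ∧ z * n ∈ A i).card : ℝ) :=
  Pool.Agent.F0f91f8.FC.all_FinF P hP d r ε hε

end Pool.Agent.Results.MP_0f91f8_co.PrimeClasses
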