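import Pool.Agent.Work.MP_0f91f8_co.Quad.Main

open Topology

namespace Pool.Agent.Results.MP_0f91f8_co.QuadraticBohr

/-- Let `φ` be a map from the positive integers to a torus (a power of the circle group
`UnitAddCircle`, the index type `I` is arbitrary) all of whose third multiplicative differences
vanish; equivalently `φ (m * n) = φ m + φ n - φ 1 + B m n` with `B` completely additive in each
variable.  Let `U` be a neighbourhood of `φ n₀`, and let `A` be a multiplicatively thick set (it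
contains a dilate of every finite set of positive integers).  Then the set of all `n` in `A` with
`φ n` in `U` contains a Pythagorean triple. -/
theorem result {I : Type*} (φ : ℕ → I → UnitAddCircle)
    (hφ : ∀ a b c : ℕ, 0 < a → 0 < b → 0 < c →
      φ (a * b * c) + φ a + φ b + φ c = φ (a * b) + φ (a * c) + φ (b * c) + φ 1)
    (n₀ : ℕ) (hn₀ : 0 < n₀) (U : Set (I → UnitAddCircle)) (hU : U ∈ 𝓝 (φ n₀)) (A : Set ℕ)
    (hA : ∀ X : Finset ℕ, (∀ x ∈ X, 0 < x) → ∃ k : ℕ, 0 < k ∧ ∀ x ∈ X, x * k ∈ A) :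
    ∃ x y z : ℕ, 0 < x ∧ 0 < y ∧ 0 < z ∧ x ^ 2 + y ^ 2 = z ^ 2 ∧ x ∈ A ∧ y ∈ A ∧ z ∈ A ∧
      φ x ∈ U ∧ φ y ∈ U ∧ φ z ∈ U :=
  Pool.Agent.Work.MP_0f91f8_co.Quad.main
    (fun a b c ha hb hc i => congrFun (hφ a b c ha hb hc) i) hn₀ hU hA

end Pool.Agent.Results.MP_0f91f8_co.QuadraticBohr
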