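import Pool.Agent.Work.MP_0f91f8_co.QF.Loc4

namespace Pool.Agent.Results.MP_0f91f8_co.QuadraticFields

/-- Let `D` be a nonzero integer, let `κ, ε ≥ 0` satisfy
`(1 + ε) ^ (r + 1) * (1 + 6 κ) ^ r * (5 + 6 κ) < 8` (for example `κ = ε = 1 / (20 r)`), let `S` be
a set which contains a positive multiple of every positive integer (for example the set of the
factorials) and let `c` be a colouring of the natural numbers with `r` colours. Suppose that for
every `s ∈ S` there is `M ≥ 1` such that for all large `X` there is `a` with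
`X ≤ a ≤ X ^ (1 + ε)` for which all numbers `s m` with `a ≤ m ≤ a + a ^ (1 - κ)`,
`m ≡ 1 (mod M)` and `D` a square modulo every prime factor of `m` have the same colour `γ`.
Then there is a monochromatic Pythagorean triple.

In words: nothing is assumed about the dependence of the colour of `s m` on `s`, in particular on
the primes which do not split in `ℚ(√D)`, and nothing is assumed outside the multiples `s m`,
`s ∈ S`; as a function of the cofactor `m`, composed of split primes, the colour of `s m` has to be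
constant only on one short interval (and one residue class) in every interval
`[X, X ^ (1 + ε)]`. -/
theorem result (D : ℤ) (hD : D ≠ 0) (r : ℕ) (κ ε : ℝ) (hκ : 0 ≤ κ) (hε : 0 ≤ ε)
    (hκε : (1 + ε) ^ (r + 1) * (1 + 6 * κ) ^ r * (5 + 6 * κ) < 8) (S : Set ℕ)
    (hS : ∀ n : ℕ, 0 < n → ∃ s ∈ S, 0 < s ∧ n ∣ s) (c : ℕ → Fin r)
    (hc : ∀ s ∈ S, ∃ M : ℕ, 0 < M ∧ ∀ᶠ X : ℕ in Filter.atTop, ∃ a : ℕ, X ≤ a ∧
      (a : ℝ) ≤ (X : ℝ) ^ (1 + ε) ∧ ∃ γ : Fin r, ∀ m : ℕ, a ≤ m → (m : ℝ) ≤ a + (a : ℝ) ^ (1 - κ) →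
        m ≡ 1 [MOD M] → (∀ p : ℕ, p.Prime → p ∣ m → ∃ x : ℤ, (p : ℤ) ∣ x ^ 2 - D) →
        c (s * m) = γ) :
    ∃ x y z : ℕ, 0 < x ∧ 0 < y ∧ 0 < z ∧ x ^ 2 + y ^ 2 = z ^ 2 ∧ c x = c y ∧ c y = c z :=
  Pool.Agent.Work.MP_0f91f8_co.QF.local_main D hD r κ ε hκ hε hκε S hS c hc

end Pool.Agent.Results.MP_0f91f8_co.QuadraticFields
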