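import Pool.Agent.Work.MP_0f91f8_co.Sd.Main

namespace Pool.Agent.Results.MP_0f91f8_co.ShatteringDichotomy

/-- Let `c` be a colouring of the natural numbers with `r` colours, `I` a set of colours, `A` a set
of natural numbers and `S₀` a finite set of positive integers such that for every finite set `S` of
positive integers there is `k ≥ 1` such that for all `s` in `S` the number `s k` is in `A` and
`c (s₀ s k)` is in `I` for some `s₀` in `S₀` (this is no condition if `A` is everything, `I` is the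
set of all colours and `S₀ = {1}`).  Then either there is a Pythagorean triple in `A` that is
monochromatic with a colour in `I`, or the dilates of `c` shatter an infinite set in two colours:
there are colours `i ≠ j` such that for every rule `H` that assigns to each finite set of natural
numbers a multiplicatively thick set (a set that contains a dilate of every finite set of positive
integers) there are `t 0 < t 1 < ...` with `t n ∈ H {t 0, ..., t (n - 1)}` such that every pattern of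
the colours `i`, `j` on `t 0, ..., t (n - 1)` is the pattern of `c` on some dilate
`k t 0, ..., k t (n - 1)`, contained in `A`. -/
theorem result {r : ℕ} (c : ℕ → Fin r) (I : Set (Fin r)) (A : Set ℕ) (S₀ : Finset ℕ)
    (hS₀ : ∀ s ∈ S₀, 0 < s)
    (hA : ∀ S : Finset ℕ, (∀ s ∈ S, 0 < s) →
      ∃ k : ℕ, 0 < k ∧ ∀ s ∈ S, s * k ∈ A ∧ ∃ s₀ ∈ S₀, c (s₀ * (s * k)) ∈ I) :
    (∃ x y z : ℕ, 0 < x ∧ 0 < y ∧ 0 < z ∧ x ^ 2 + y ^ 2 = z ^ 2 ∧ x ∈ A ∧ y ∈ A ∧ z ∈ A ∧
      c x = c y ∧ c y = c z ∧ c z ∈ I) ∨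
    ∃ i j : Fin r, i ≠ j ∧ ∀ H : Finset ℕ → Set ℕ,
      (∀ F S : Finset ℕ, (∀ s ∈ S, 0 < s) → ∃ k : ℕ, 0 < k ∧ ∀ s ∈ S, s * k ∈ H F) →
      ∃ t : ℕ → ℕ, StrictMono t ∧ (∀ n, 0 < t n) ∧
        (∀ n, t n ∈ H ((Finset.range n).image t)) ∧
        ∀ (n : ℕ) (E : Set ℕ), ∃ k : ℕ, 0 < k ∧ ∀ l < n, k * t l ∈ A ∧
          (l ∈ E → c (k * t l) = i) ∧ (l ∉ E → c (k * t l) = j) :=
  Pool.Agent.Work.MP_0f91f8_co.Sd.dichotomy c I A S₀ hS₀ hA

end Pool.Agent.Results.MP_0f91f8_co.ShatteringDichotomy
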