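import Pool.Agent.Work.MP_0f91f8_co.Rg.Asm

namespace Pool.Agent.Work.MP_0f91f8_co.Held.SmoothPartColourings

open scoped Classical in
/-- There are absolute constants `ε, δ₀ > 0` with the following property. Let `Q` be a set of primes
such that the sum of `1 / q` over the `q ∈ Q` with `N ^ ε < q ≤ N` is at most `δ₀` for infinitely
many `N` (for example the empty set, or any set of primes whose relative density is small).
Let `c` be a colouring of the natural numbers with finitely many colours such that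
`c (s m) = c (s n)` whenever `m ≡ n (mod M)`, `log m` and `log n` are in the same cell of the
partition of the real line into intervals of length `δ` with origin `θ s`, all prime factors of
`s` are at most `N ^ ε` and all prime factors of `m n` are greater than `N ^ ε` and outside `Q`
(`N` the smaller, respectively the larger one of `s m` and `s n`). Then there is a monochromatic
Pythagorean triple.

So the colour of `n` may be an arbitrary function of the part of `n` composed of all primes
`≤ n ^ ε`, of the exponents of all primes of `Q`, of the residue class modulo `M` and of the rough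
size of the remaining factor. -/
theorem result : ∃ ε : ℝ, 0 < ε ∧ ∃ δ₀ : ℝ, 0 < δ₀ ∧ ∀ Q : Set ℕ,
    (∃ᶠ N : ℕ in Filter.atTop,
      ∑ q ∈ (Finset.Ioc ⌊(N : ℝ) ^ ε⌋₊ N).filter (fun q => q.Prime ∧ q ∈ Q), (1 : ℝ) / q ≤ δ₀) →
    ∀ (M : ℕ) (δ : ℝ) (θ : ℕ → ℝ) (r : ℕ) (c : ℕ → Fin r), 0 < M → 0 < δ →
    (∀ s m n : ℕ, 0 < s → 0 < m → 0 < n → m ≡ n [MOD M] →
      ⌊(Real.log m - θ s) / δ⌋ = ⌊(Real.log n - θ s) / δ⌋ →
      (∀ p : ℕ, p.Prime → p ∣ s → (p : ℝ) ≤ ((s * min m n : ℕ) : ℝ) ^ ε) →
      (∀ p : ℕ, p.Prime → p ∣ m * n → ((s * max m n : ℕ) : ℝ) ^ ε < p ∧ p ∉ Q) →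
      c (s * m) = c (s * n)) →
    ∃ x y z : ℕ, 0 < x ∧ 0 < y ∧ 0 < z ∧ x ^ 2 + y ^ 2 = z ^ 2 ∧ c x = c y ∧ c y = c z :=
  Pool.Agent.Work.MP_0f91f8_co.Rg.Main2_ok

end Pool.Agent.Work.MP_0f91f8_co.Held.SmoothPartColourings
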