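import Mathlib

namespace Pool.Agent.Work.MP_0f91f8_co.Held.SplitInvariant

/-- Let `M ≥ 1` and let `c` be a colouring of the positive integers with finitely many colours such
that `c (q * n) = c n` whenever `q` is odd and `q = a ^ 2 + b ^ 2` with coprime integers `a ≡ 1`,
`b ≡ 0 (mod M)`.  Then some Pythagorean triple is monochromatic. -/
theorem result (r M : ℕ) (hM : 0 < M) (c : ℕ → Fin r)
    (hc : ∀ n q : ℕ, 0 < n → Odd q →
      (∃ a b : ℤ, (q : ℤ) = a ^ 2 + b ^ 2 ∧ IsCoprime a b ∧ a ≡ 1 [ZMOD M] ∧ b ≡ 0 [ZMOD M]) →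
      c (q * n) = c n) :
    ∃ x y z : ℕ, 0 < x ∧ 0 < y ∧ 0 < z ∧ x ^ 2 + y ^ 2 = z ^ 2 ∧ c x = c y ∧ c y = c z := by
  -- pigeonhole on the colours of the powers of 24 M
  obtain ⟨i, j, hij, hcij⟩ : ∃ i j : ℕ, i < j ∧ c ((24 * M) ^ i) = c ((24 * M) ^ j) := by
    obtain ⟨i, j, hij, h⟩ := Finite.exists_ne_map_eq_of_infinite (fun i : ℕ => c ((24 * M) ^ i))
    rcases lt_or_gt_of_ne hij with h1 | h1
    · exact ⟨i, j, h1, h⟩
    · exact ⟨j, i, h1, h.symm⟩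
  obtain ⟨e, rfl⟩ : ∃ e, j = i + (e + 1) := ⟨j - i - 1, by omega⟩
  set k : ℕ := (24 * M) ^ i with hk
  have hkpos : 0 < k := by positivity
  -- the parameter t
  set s : ℕ := (24 * M) ^ e with hs
  have hspos : 0 < s := by positivity
  obtain ⟨t, ht⟩ : ∃ t, t = 3 * M * s := ⟨_, rfl⟩
  have h8t : (24 * M) ^ (i + (e + 1)) = 8 * t * k := by
    rw [pow_add, pow_succ, ← hs, ht]; ring
  have htpos : 0 < t := by rw [ht]; positivity
  have htM : (t : ℤ) ≡ 0 [ZMOD M] :=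
    (Int.modEq_zero_iff_dvd).mpr ⟨3 * s, by rw [ht]; push_cast; ring⟩
  have hmul : ∀ x : ℤ, x * t ≡ 0 [ZMOD M] := fun x => by simpa using htM.mul_left x
  have h3t : 3 ∣ t := ⟨M * s, by rw [ht]; ring⟩
  obtain ⟨u, hu⟩ : ∃ u, t = u + 1 := ⟨t - 1, by omega⟩
  -- coprimality facts
  have hcop3 : ∀ a : ℕ, Nat.Coprime a t → Nat.Coprime a (3 * t) := by
    intro a ha
    exact Nat.Coprime.mul_right (Nat.Coprime.coprime_dvd_right h3t ha) ha
  have c1 : Nat.Coprime (t + 1) (3 * t) := by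
    apply hcop3; simp
  have c2 : Nat.Coprime u (3 * t) := by
    apply hcop3; rw [hu]; simp
  have c3 : Nat.Coprime (3 * t + 1) t := by
    simp
  -- the numbers
  set m : ℕ := (t + 1) ^ 2 + (3 * t) ^ 2 with hm
  set dd : ℕ := u ^ 2 + (3 * t) ^ 2 with hdd
  set ss : ℕ := t ^ 2 + (3 * t + 1) ^ 2 with hss
  have hmd : m = dd + 4 * t := by rw [hm, hdd, hu]; ring
  have hms : ss = m + 4 * t := by rw [hm, hss]; ring
  have hmpos : 0 < m := by positivity
  have hdpos : 0 < dd := by positivity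
  have hsspos : 0 < ss := by positivity
  have hmodd : Odd m := ⟨5 * t ^ 2 + t, by rw [hm]; ring⟩
  have hdodd : Odd dd := by
    rcases hmodd with ⟨w, hw⟩
    exact ⟨w - 2 * t, by omega⟩
  have hsodd : Odd ss := by
    rcases hmodd with ⟨w, hw⟩
    exact ⟨w + 2 * t, by omega⟩
  have hzodd : Odd (m ^ 2 + (4 * t) ^ 2) := by
    rcases hmodd with ⟨w, hw⟩
    exact ⟨2 * w ^ 2 + 2 * w + 8 * t ^ 2, by rw [hw]; ring⟩
  have c4 : Nat.Coprime m (4 * t) := by
    have h1 : Nat.Coprime m t := by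
      have : m = 1 + t * (10 * t + 2) := by rw [hm]; ring
      rw [this]; simp
    have h2 : Nat.Coprime m 2 := by
      rw [Nat.coprime_two_right]; exact hmodd
    have h4 : Nat.Coprime m 4 := by
      have : (4 : ℕ) = 2 ^ 2 := by norm_num
      rw [this]; exact Nat.Coprime.pow_right 2 h2
    exact Nat.Coprime.mul_right h4 h1
  -- the representations
  have repm : ∃ a b : ℤ, (m : ℤ) = a ^ 2 + b ^ 2 ∧ IsCoprime a b ∧ a ≡ 1 [ZMOD M] ∧
      b ≡ 0 [ZMOD M] := by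
    refine ⟨((t + 1 : ℕ) : ℤ), ((3 * t : ℕ) : ℤ), by rw [hm]; push_cast; ring,
      Nat.isCoprime_iff_coprime.mpr c1, ?_, ?_⟩
    · push_cast; simpa using htM.add_right 1
    · push_cast; exact hmul 3
  have repd : ∃ a b : ℤ, (dd : ℤ) = a ^ 2 + b ^ 2 ∧ IsCoprime a b ∧ a ≡ 1 [ZMOD M] ∧
      b ≡ 0 [ZMOD M] := by
    refine ⟨-(u : ℤ), ((3 * t : ℕ) : ℤ), by rw [hdd]; push_cast; ring,
      (Nat.isCoprime_iff_coprime.mpr c2).neg_left, ?_, ?_⟩
    · have : -(u : ℤ) = -1 * t + 1 := by rw [hu]; push_cast; ring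
      rw [this]
      simpa using (hmul (-1)).add_right 1
    · push_cast; exact hmul 3
  have reps : ∃ a b : ℤ, (ss : ℤ) = a ^ 2 + b ^ 2 ∧ IsCoprime a b ∧ a ≡ 1 [ZMOD M] ∧
      b ≡ 0 [ZMOD M] := by
    refine ⟨((3 * t + 1 : ℕ) : ℤ), (t : ℤ), by rw [hss]; push_cast; ring,
      Nat.isCoprime_iff_coprime.mpr c3, ?_, htM⟩
    push_cast; simpa using (hmul 3).add_right 1
  have repz : ∃ a b : ℤ, ((m ^ 2 + (4 * t) ^ 2 : ℕ) : ℤ) = a ^ 2 + b ^ 2 ∧ IsCoprime a b ∧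
      a ≡ 1 [ZMOD M] ∧ b ≡ 0 [ZMOD M] := by
    refine ⟨(m : ℤ), ((4 * t : ℕ) : ℤ), by push_cast; ring,
      Nat.isCoprime_iff_coprime.mpr c4, ?_, ?_⟩
    · have : (m : ℤ) = (10 * t + 2) * t + 1 := by rw [hm]; push_cast; ring
      rw [this]
      simpa using (hmul (10 * t + 2)).add_right 1
    · push_cast; exact hmul 4
  -- the triple
  have hy : c (dd * ss * k) = c k := by
    rw [mul_assoc, hc (ss * k) dd (by positivity) hdodd repd, hc k ss hkpos hsodd reps]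
  have hz : c ((m ^ 2 + (4 * t) ^ 2) * k) = c k := hc k _ hkpos hzodd repz
  have hx : c (8 * t * m * k) = c k := by
    have : 8 * t * m * k = m * (8 * t * k) := by ring
    rw [this, hc (8 * t * k) m (by positivity) hmodd repm, ← h8t, ← hcij]
  refine ⟨8 * t * m * k, dd * ss * k, (m ^ 2 + (4 * t) ^ 2) * k, by positivity, by positivity,
    by positivity, ?_, ?_, ?_⟩
  · rw [hms, hmd]; ring
  · rw [hx, hy]
  · rw [hy, hz]

end Pool.Agent.Work.MP_0f91f8_co.Held.SplitInvariant
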